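import Pool.Agent.Helper77.PPS.Goals

/-!
# Project PP part A3, packet P_DBL: doubling
-/

set_option autoImplicit false

namespace Pool.Agent.Helper8.PPS

open Finset Real Pool.Agent.Helper77.PPS

theorem ms_split {P : Type} {N : P → ℕ} {C : ℝ} (hN : PSys N C) (f : P → ℝ) {X Y : ℝ}
    (hXY : X ≤ Y) : ms N f Y = ms N f X + mw N f X Y := by
  have h1 : pr N X = (pr N Y).filter (fun q ↦ ¬ X < N q) := by
    ext q
    rw [mem_filter, mem_pr hN, mem_pr hN, not_lt]
    exact ⟨fun h ↦ ⟨h.trans hXY, h⟩, fun h ↦ h.2⟩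
  unfold ms mw
  rw [h1, add_comm]
  exact (sum_filter_add_sum_filter_not (pr N Y) (fun q ↦ X < (N q : ℝ)) _).symm

theorem p_dbl (h1 : Pool.Agent.Helper77.PPS.P_CNT) : Pool.Agent.Helper77.PPS.P_DBL := by
  intro C A T hT
  obtain ⟨C₁, hC₁, h⟩ := h1 C
  have hT0 : 0 < T := by linarith
  have hA' : 0 ≤ max A 0 := le_max_right _ _
  refine ⟨T * exp (max A 0 * (C₁ * (log T / log 2 + 1 / log 2))), by positivity, ?_⟩
  intro P N hN f hf X hX
  obtain ⟨-, -, -, h4⟩ := h P N hN
  have hX0 : 0 < X := by linarith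
  have hl2 : 0 < log 2 := log_pos (by norm_num)
  have hlX : log 2 ≤ log X := log_le_log (by norm_num) hX
  have hlX0 : 0 < log X := by linarith
  have hXT : X ≤ T * X := le_mul_of_one_le_left hX0.le hT
  have hlT : 0 ≤ log T := log_nonneg hT
  have hlog : log (T * X) = log T + log X := log_mul hT0.ne' hX0.ne'
  have hlTX : 0 < log (T * X) := by rw [hlog]; linarith
  have h5 : mw N f X (T * X) ≤ max A 0 * mw N (fun _ ↦ 1) X (T * X) := by
    unfold mw
    rw [mul_sum]
    apply sum_le_sum
    intro q _
    have hq : (0 : ℝ) < N q := by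
      have := hN.two q
      exact_mod_cast (by omega : 0 < N q)
    rw [mul_one_div]
    exact div_le_div_of_nonneg_right (((hf q).2).trans (le_max_left _ _)) hq.le
  have h6 : log (log (T * X)) - log (log X) ≤ log T / log 2 := by
    rw [← log_div hlTX.ne' hlX0.ne']
    have h7 : log (log (T * X) / log X) ≤ log (T * X) / log X - 1 :=
      log_le_sub_one_of_pos (by positivity)
    have h8 : log (T * X) / log X - 1 = log T / log X := by
      rw [hlog]
      field_simp
      ring
    have h9 : log T / log X ≤ log T / log 2 := div_le_div_of_nonneg_left hlT hl2 hlX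
    linarith
  have h10 : 1 / log X ≤ 1 / log 2 := one_div_le_one_div_of_le hl2 hlX
  have h11 : mw N f X (T * X) ≤ max A 0 * (C₁ * (log T / log 2 + 1 / log 2)) := by
    refine h5.trans (mul_le_mul_of_nonneg_left ?_ hA')
    refine (h4 X (T * X) hX hXT).trans (mul_le_mul_of_nonneg_left ?_ hC₁.le)
    linarith
  unfold mag
  rw [ms_split hN f hXT, exp_add]
  have h12 : T * X / log (T * X) ≤ T * (X / log X) := by
    rw [mul_div_assoc]
    refine mul_le_mul_of_nonneg_left ?_ hT0.le
    refine div_le_div_of_nonneg_left hX0.le hlX0 ?_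
    rw [hlog]
    linarith
  have h13 : exp (mw N f X (T * X)) ≤ exp (max A 0 * (C₁ * (log T / log 2 + 1 / log 2))) :=
    exp_le_exp.2 h11
  calc T * X / log (T * X) * (exp (ms N f X) * exp (mw N f X (T * X)))
      ≤ T * (X / log X) *
          (exp (ms N f X) * exp (max A 0 * (C₁ * (log T / log 2 + 1 / log 2)))) := by
        refine mul_le_mul h12 ?_ (by positivity) (by positivity)
        exact mul_le_mul_of_nonneg_left h13 (by positivity)
    _ = T * exp (max A 0 * (C₁ * (log T / log 2 + 1 / log 2))) *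
          (X / log X * exp (ms N f X)) := by ring

end Pool.Agent.Helper8.PPS
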